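import Pool.Agent.H14.Alb3

set_option autoImplicit false

namespace Pool.Agent.Results.MP_cd0eb5_co.Counter

open Finset Filter Topology Pool.Agent.H14.Alb

/-- `σ` is contained in `π`: some subsequence of `π` has pattern `σ`. -/
def Contains {n k : ℕ} (π : Equiv.Perm (Fin n)) (σ : Equiv.Perm (Fin k)) : Prop :=
  ∃ f : Fin k ↪o Fin n, ∀ i j, σ i < σ j ↔ π (f i) < π (f j)

/-- `Av(B) ∩ S_n`. -/
def Av (B : Set (Σ k : ℕ, Equiv.Perm (Fin k))) (n : ℕ) : Set (Equiv.Perm (Fin n)) :=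
  {π | ∀ β ∈ B, ¬ Contains π β.2}

/-- `L_{Av(B)}(π)`: the largest size of a subsequence of `π` whose pattern lies in `Av(B)`. -/
noncomputable def L (B : Set (Σ k : ℕ, Equiv.Perm (Fin k))) {n : ℕ} (π : Equiv.Perm (Fin n)) : ℕ :=
  sSup {k | ∃ σ ∈ Av B k, Contains π σ}

/-- `E L_{Av(B)}(Π_n)` for `Π_n` uniform on `S_n`. -/
noncomputable def EL (B : Set (Σ k : ℕ, Equiv.Perm (Fin k))) (n : ℕ) : ℝ :=
  (∑ π : Equiv.Perm (Fin n), (L B π : ℝ)) / n.factorial

/-- permutations of length `m+2` whose last entry is the smallest -/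
def B0 (m : ℕ) : Set (Σ k : ℕ, Equiv.Perm (Fin k)) :=
  {β | β.1 = m + 2 ∧ ∀ i j : Fin β.1, i < j → (j : ℕ) = m + 1 → β.2 j < β.2 i}

lemma av_of_P {m n : ℕ} (π : Equiv.Perm (Fin n)) (h : P m π) : π ∈ Av (B0 m) n := by
  rintro ⟨k, β⟩ ⟨hk, hβ⟩ ⟨f, hf⟩
  simp only at hk hβ hf
  subst hk
  have h1 := h (f (Fin.last (m + 1)))
  have h2 : (univ : Finset (Fin (m + 1))).card ≤ (univ.filter fun j => j < f (Fin.last (m + 1)) ∧
      π (f (Fin.last (m + 1))) < π j).card := by
    refine card_le_card_of_injOn (fun a => f a.castSucc) ?_ ?_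
    · intro a _
      simp only [coe_filter, mem_univ, true_and, Set.mem_ofPred_eq]
      exact ⟨f.strictMono (Fin.castSucc_lt_last a), (hf _ _).1 (hβ _ _ (Fin.castSucc_lt_last a) rfl)⟩
    · intro a _ b _ hab
      exact Fin.castSucc_injective _ (f.injective hab)
  simp only [card_univ, Fintype.card_fin] at h2
  omega

lemma P_of_av {m n : ℕ} (π : Equiv.Perm (Fin n)) (h : π ∈ Av (B0 m) n) : P m π := by
  intro i
  by_contra hcon
  obtain ⟨T, hT, hTc⟩ := exists_subset_card_eq (n := m + 1) (Nat.succ_le_of_lt (not_le.1 hcon))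
  have hiT : i ∉ T := fun hi => lt_irrefl _ (mem_filter.1 (hT hi)).2.1
  have hc : (insert i T).card = m + 2 := by rw [card_insert_of_notMem hiT, hTc]
  let g := (insert i T).orderEmbOfFin hc
  have hg : ∀ a, g a = i ∨ (g a < i ∧ π i < π (g a)) := by
    intro a
    rcases mem_insert.1 (orderEmbOfFin_mem (insert i T) hc a) with h1 | h1
    · exact Or.inl h1
    · exact Or.inr (mem_filter.1 (hT h1)).2
  have hlast : g (Fin.last (m + 1)) = i := by
    have : i ∈ Set.range g := by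
      rw [range_orderEmbOfFin]
      simp
    obtain ⟨a, ha⟩ := this
    rcases hg (Fin.last (m + 1)) with h1 | h1
    · exact h1
    · have := g.monotone (Fin.le_last a)
      rw [ha] at this
      exact absurd h1.1 (not_lt.2 this)
  let v : Fin (m + 2) → Fin n := fun a => π (g a)
  have hv : Function.Injective v := π.injective.comp g.injective
  have hsm : StrictMono (v ∘ Tuple.sort v) :=
    (Tuple.monotone_sort v).strictMono_of_injective (hv.comp (Tuple.sort v).injective)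
  have key : ∀ a b, (Tuple.sort v).symm a < (Tuple.sort v).symm b ↔ π (g a) < π (g b) := by
    intro a b
    rw [← hsm.lt_iff_lt]
    simp [v]
  refine h ⟨m + 2, (Tuple.sort v).symm⟩ ⟨rfl, ?_⟩ ⟨g, key⟩
  intro a b hab hb
  have hb' : b = Fin.last (m + 1) := Fin.ext hb
  subst hb'
  rw [key, hlast]
  rcases hg a with h1 | h1
  · have := g.strictMono hab
    rw [hlast, h1] at this
    exact absurd this (lt_irrefl _)
  · exact h1.2

lemma le_of_contains {n k : ℕ} {π : Equiv.Perm (Fin n)} {σ : Equiv.Perm (Fin k)}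
    (h : Contains π σ) : k ≤ n := by
  obtain ⟨f, _⟩ := h
  simpa using Fintype.card_le_of_injective f f.injective

lemma L_le {B : Set (Σ k : ℕ, Equiv.Perm (Fin k))} {n : ℕ} (π : Equiv.Perm (Fin n)) :
    L B π ≤ n :=
  csSup_le' fun _ ⟨_, _, h⟩ => le_of_contains h

lemma L_le_of_not_big {m n K : ℕ} (π : Equiv.Perm (Fin n)) (h : ¬ Big m K π) : L (B0 m) π ≤ K := by
  refine csSup_le' ?_
  rintro k ⟨σ, hσ, f, hf⟩
  by_contra hcon
  refine h ⟨univ.image f, ?_, ?_⟩
  · intro i hi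
    obtain ⟨a, _, rfl⟩ := mem_image.1 hi
    refine le_trans (le_trans (card_le_card ?_) (card_image_le (f := f))) (P_of_av σ hσ a)
    intro j hj
    obtain ⟨hj1, hj2⟩ := mem_filter.1 hj
    obtain ⟨b, _, rfl⟩ := mem_image.1 hj1
    exact mem_image_of_mem _ (mem_filter.2 ⟨mem_univ _, f.lt_iff_lt.1 hj2.1, (hf _ _).2 hj2.2⟩)
  · rw [card_image_of_injective _ f.injective]
    simpa using (not_le.1 hcon).le

lemma EL_le (n : ℕ) (hn : 300 ≤ Nat.sqrt n) : EL (B0 2500) n ≤ 95 * Real.sqrt n := by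
  classical
  have h1 := bad_le n hn
  obtain ⟨K, hK⟩ : ∃ K, K = 94 * (Nat.sqrt n + 3) := ⟨_, rfl⟩
  rw [← hK] at h1
  have h2 : ∑ π : Equiv.Perm (Fin n), L (B0 2500) π ≤ (K + 1) * n.factorial := by
    have h3 : ∀ π : Equiv.Perm (Fin n), L (B0 2500) π ≤ K + if Big 2500 K π then n else 0 := by
      intro π
      split_ifs with h
      · exact (L_le π).trans (Nat.le_add_left _ _)
      · exact L_le_of_not_big π h
    refine (sum_le_sum fun π _ => h3 π).trans ?_
    rw [sum_add_distrib, ← sum_filter]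
    simp only [sum_const, card_univ, Fintype.card_perm, Fintype.card_fin, smul_eq_mul]
    have h4 : (univ.filter fun π : Equiv.Perm (Fin n) => Big 2500 K π).card * n ≤ n.factorial := by
      rw [mul_comm]
      convert h1
    nlinarith
  unfold EL
  rw [div_le_iff₀ (by positivity)]
  have h5 : (∑ π : Equiv.Perm (Fin n), (L (B0 2500) π : ℝ)) ≤ ((K : ℝ) + 1) * n.factorial := by
    exact_mod_cast h2
  refine h5.trans (mul_le_mul_of_nonneg_right ?_ (by positivity))
  have h6 : ((Nat.sqrt n : ℕ) : ℝ) ≤ Real.sqrt n := Real.nat_sqrt_le_real_sqrt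
  have h7 : (300 : ℝ) ≤ (Nat.sqrt n : ℕ) := by exact_mod_cast hn
  rw [hK]
  push_cast
  linarith

lemma card_ge (m c : ℕ) (hc : 0 < c) (hcm : c < m + 1) :
    ∀ᶠ n : ℕ in atTop, c ^ n ≤ (Av (B0 m) n).ncard := by
  classical
  have hc' : (0 : ℝ) < c := by exact_mod_cast hc
  have h1 : (1 : ℝ) < (m + 1 : ℝ) / c := by
    rw [one_lt_div hc']
    exact_mod_cast hcm
  have h2 := (tendsto_pow_atTop_atTop_of_one_lt h1).eventually_ge_atTop ((m + 1 : ℝ) ^ m)
  filter_upwards [h2, eventually_ge_atTop m] with n hn hmn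
  obtain ⟨d, rfl⟩ := Nat.exists_eq_add_of_le hmn
  have h3 := count_ge m d
  have h4 : (univ.filter fun π : Equiv.Perm (Fin (m + d)) => P m π).card ≤
      (Av (B0 m) (m + d)).ncard := by
    rw [← Set.ncard_coe_finset]
    refine Set.ncard_le_ncard ?_ (Set.toFinite _)
    intro π hπ
    exact av_of_P π (mem_filter.1 (mem_coe.1 hπ)).2
  refine le_trans ?_ (h3.trans (by convert h4))
  rw [div_pow, le_div_iff₀ (by positivity), pow_add (m + 1 : ℝ)] at hn
  have h5 : (c : ℝ) ^ (m + d) ≤ (m + 1 : ℝ) ^ d := le_of_mul_le_mul_left hn (by positivity)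
  exact_mod_cast h5

lemma main : ∀ᶠ n : ℕ in atTop,
    2400 ^ n ≤ (Av (B0 2500) n).ncard ∧ EL (B0 2500) n ≤ 95 * Real.sqrt n := by
  filter_upwards [card_ge 2500 2400 (by norm_num) (by norm_num), eventually_ge_atTop 90000]
    with n h1 h2
  exact ⟨h1, EL_le n (Nat.le_sqrt.2 h2)⟩

theorem result : ∃ B : Set (Σ k : ℕ, Equiv.Perm (Fin k)), B.Nonempty ∧ B.Finite ∧
    (∀ᶠ n : ℕ in atTop, 2400 ^ n ≤ (Av B n).ncard ∧ EL B n ≤ 95 * Real.sqrt n) ∧
    ¬ ∃ s t : ℝ, Tendsto (fun n : ℕ => ((Av B n).ncard : ℝ) ^ (1 / (n : ℝ))) atTop (𝓝 s) ∧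
      Tendsto (fun n : ℕ => EL B n / Real.sqrt n) atTop (𝓝 t) ∧ (t / 2) ^ 2 = s := by
  refine ⟨B0 2500, ⟨⟨2500 + 2, Fin.revPerm⟩, rfl, fun i j hij _ => ?_⟩, ?_, main, ?_⟩
  · simpa using hij
  · refine (Set.finite_range (fun β : Equiv.Perm (Fin (2500 + 2)) =>
      (⟨2500 + 2, β⟩ : Σ k : ℕ, Equiv.Perm (Fin k)))).subset ?_
    rintro ⟨k, β⟩ ⟨hk, _⟩
    simp only at hk
    subst hk
    exact ⟨β, rfl⟩
  · rintro ⟨s, t, hs, ht, hst⟩
    have h1 : (2400 : ℝ) ≤ s := by
      refine ge_of_tendsto hs ?_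
      filter_upwards [main, eventually_gt_atTop 0] with n hn hn0
      have h2 : (2400 : ℝ) ^ n ≤ ((Av (B0 2500) n).ncard : ℝ) := by exact_mod_cast hn.1
      have h3 := Real.rpow_le_rpow (by positivity) h2 (show (0 : ℝ) ≤ 1 / (n : ℝ) by positivity)
      rwa [one_div, Real.pow_rpow_inv_natCast (by norm_num) hn0.ne', ← one_div] at h3
    have h2 : t ≤ 95 := by
      refine le_of_tendsto ht ?_
      filter_upwards [main, eventually_gt_atTop 0] with n hn hn0
      have : (0 : ℝ) < Real.sqrt n := Real.sqrt_pos.2 (by exact_mod_cast hn0)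
      rw [div_le_iff₀ this]
      exact hn.2
    have h3 : 0 ≤ t := by
      refine ge_of_tendsto ht (Eventually.of_forall fun n => ?_)
      unfold EL
      positivity
    nlinarith

end Pool.Agent.Results.MP_cd0eb5_co.Counter
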